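import Pool.Agent.H24.SCG2.Base3

/-!
Project SCG2, module CGI: third intersection condition for `PGL(3,q).2`.
-/

namespace Pool.Agent.H6.SCG2

open Matrix Pool.SCG

variable {F : Type*} [Field F]

theorem gis_inv_f {α : MulAut (SL3 F)} {M : M3 F} (h : GIs α false M) : GIs α⁻¹ false M⁻¹ := by
  have hd := h.det_ne
  have h1 : M * M⁻¹ = 1 := Matrix.mul_nonsing_inv M (isUnit_iff_ne_zero.2 hd)
  have hd' : (M⁻¹).det ≠ 0 := by
    intro h0
    have := congrArg Matrix.det h1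
    rw [Matrix.det_mul, h0, mul_zero, Matrix.det_one] at this
    exact zero_ne_one this
  obtain ⟨β, hβ⟩ := gis_exists false M⁻¹ hd'
  have h2 : α * β = 1 := by
    have h3 := h.mul_inner hβ
    rw [h1] at h3
    exact h3.ext gis_one 1 (by rw [one_smul])
  rw [← eq_inv_of_mul_eq_one_right h2]
  exact hβ

theorem gis_inv_t {α : MulAut (SL3 F)} {M : M3 F} (h : GIs α true M) :
    GIs α⁻¹ true M.transpose := by
  have hd := h.det_ne
  have h1 : M * M⁻¹ = 1 := Matrix.mul_nonsing_inv M (isUnit_iff_ne_zero.2 hd)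
  have hd' : (M.transpose).det ≠ 0 := by rw [Matrix.det_transpose]; exact hd
  obtain ⟨β, hβ⟩ := gis_exists true M.transpose hd'
  have h2 : α * β = 1 := by
    have h3 := h.mul_outer hβ h1
    rw [← Matrix.transpose_mul, h1, Matrix.transpose_one] at h3
    exact h3.ext gis_one 1 (by rw [one_smul])
  rw [← eq_inv_of_mul_eq_one_right h2]
  exact hβ

/-! ### monomial matrices -/

/-- monomial matrices -/
def Mono (M : M3 F) : Prop := ∃ σ : Equiv.Perm (Fin 3), ∃ v : Fin 3 → F, (∀ i, v i ≠ 0) ∧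
  ∀ i j, M i j = if i = σ j then v j else 0

theorem Mono.mul {M N : M3 F} (hM : Mono M) (hN : Mono N) : Mono (M * N) := by
  obtain ⟨σ, v, hv, h1⟩ := hM
  obtain ⟨τ, u, hu, h2⟩ := hN
  refine ⟨σ * τ, fun j => v (τ j) * u j, fun i => mul_ne_zero (hv _) (hu _), fun i j => ?_⟩
  rw [Matrix.mul_apply]
  simp only [h1, h2, mul_ite, mul_zero, Finset.sum_ite_eq', Finset.mem_univ, if_true, ite_mul,
    zero_mul, Equiv.Perm.mul_apply]
  all_goals (by_cases h : i = σ (τ j) <;> simp [h])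

theorem Mono.transpose {M : M3 F} (hM : Mono M) : Mono M.transpose := by
  obtain ⟨σ, v, hv, h1⟩ := hM
  refine ⟨σ⁻¹, fun j => v (σ⁻¹ j), fun i => hv _, fun i j => ?_⟩
  rw [Matrix.transpose_apply, h1]
  by_cases h : j = σ i
  · subst h
    simp
  · rw [if_neg h, if_neg]
    rintro rfl
    exact h (by simp)

theorem Mono.inv {M : M3 F} (hM : Mono M) : Mono M⁻¹ := by
  obtain ⟨σ, v, hv, h1⟩ := hM
  have e : M⁻¹ = Matrix.of fun i j => if j = σ i then (v i)⁻¹ else 0 := by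
    apply Matrix.inv_eq_left_inv
    ext i j
    rw [Matrix.mul_apply]
    simp only [Matrix.of_apply, h1, ite_mul, zero_mul, Finset.sum_ite_eq', Finset.mem_univ,
      if_true]
    by_cases h : i = j
    · subst h
      simp [hv]
    · rw [Matrix.one_apply_ne h, if_neg (fun h' => h (σ.injective h'))]
      simp
  rw [e]
  refine ⟨σ⁻¹, fun j => (v (σ⁻¹ j))⁻¹, fun i => inv_ne_zero (hv _), fun i j => ?_⟩
  rw [Matrix.of_apply]
  by_cases h : j = σ i
  · subst h
    simp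
  · rw [if_neg h, if_neg]
    rintro rfl
    exact h (by simp)

/-- the monomial property -/
def P2 (x : MulAut (SL3 F)) : Prop := ∃ s M, GIs x s M ∧ Mono M

theorem p2_mul {x y : MulAut (SL3 F)} (hx : P2 x) (hy : P2 y) : P2 (x * y) := by
  obtain ⟨s, M, h1, h2⟩ := hx
  obtain ⟨t, N, h3, h4⟩ := hy
  cases t with
  | false => exact ⟨_, _, h1.mul_inner h3, h2.mul h4⟩
  | true =>
    have hd := h1.det_ne
    have h5 : M * M⁻¹ = 1 := Matrix.mul_nonsing_inv M (isUnit_iff_ne_zero.2 hd)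
    exact ⟨_, _, h1.mul_outer h3 h5, h2.inv.transpose.mul h4⟩

theorem p2_inv {x : MulAut (SL3 F)} (hx : P2 x) : P2 x⁻¹ := by
  obtain ⟨s, M, h1, h2⟩ := hx
  cases s with
  | false => exact ⟨_, _, gis_inv_f h1, h2.inv⟩
  | true => exact ⟨_, _, gis_inv_t h1, h2.transpose⟩

/-- the invariant line -/
def P1 (w0 ψ : Fin 3 → F) (x : MulAut (SL3 F)) : Prop :=
  ∃ s M, ∃ κ κ' : F, κ ≠ 0 ∧ κ' ≠ 0 ∧ GIs x s M ∧ M *ᵥ w0 = κ • (if s then ψ else w0) ∧
    M.transpose *ᵥ (if s then w0 else ψ) = κ' • ψ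

theorem inv_mulVec {M : M3 F} {u v : Fin 3 → F} {κ : F} (hd : M.det ≠ 0) (hκ : κ ≠ 0)
    (h : M *ᵥ u = κ • v) : M⁻¹ *ᵥ v = κ⁻¹ • u := by
  have h1 : M⁻¹ * M = 1 := Matrix.nonsing_inv_mul M (isUnit_iff_ne_zero.2 hd)
  have h2 : M⁻¹ *ᵥ (M *ᵥ u) = u := by rw [Matrix.mulVec_mulVec, h1, Matrix.one_mulVec]
  rw [h, Matrix.mulVec_smul] at h2
  rw [← h2, smul_smul, inv_mul_cancel₀ hκ, one_smul]

theorem p1_mul {w0 ψ : Fin 3 → F} {x y : MulAut (SL3 F)} (hx : P1 w0 ψ x) (hy : P1 w0 ψ y) :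
    P1 w0 ψ (x * y) := by
  obtain ⟨s, M, κ, κ', k1, k2, h1, h2, h3⟩ := hx
  obtain ⟨t, N, l, l', l1, l2, g1, g2, g3⟩ := hy
  cases t with
  | false =>
    simp only [Bool.false_eq_true, if_false] at g2 g3
    refine ⟨_, _, l * κ, κ' * l', mul_ne_zero l1 k1, mul_ne_zero k2 l2, h1.mul_inner g1, ?_, ?_⟩
    · rw [← Matrix.mulVec_mulVec, g2, Matrix.mulVec_smul, h2, smul_smul]
    · rw [Matrix.transpose_mul, ← Matrix.mulVec_mulVec, h3, Matrix.mulVec_smul, g3, smul_smul]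
  | true =>
    simp only [if_true] at g2 g3
    have hd := h1.det_ne
    have hdt : (M.transpose).det ≠ 0 := by rw [Matrix.det_transpose]; exact hd
    have h5 : M * M⁻¹ = 1 := Matrix.mul_nonsing_inv M (isUnit_iff_ne_zero.2 hd)
    have h6 := inv_mulVec hdt k2 h3
    have h7 := inv_mulVec hd k1 h2
    rw [← Matrix.transpose_nonsing_inv] at h6
    refine ⟨_, _, l * κ'⁻¹, κ⁻¹ * l', mul_ne_zero l1 (inv_ne_zero k2),
      mul_ne_zero (inv_ne_zero k1) l2, h1.mul_outer g1 h5, ?_, ?_⟩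
    · rw [← Matrix.mulVec_mulVec, g2, Matrix.mulVec_smul, h6, smul_smul]
      cases s <;> simp
    · rw [Matrix.transpose_mul, Matrix.transpose_transpose, ← Matrix.mulVec_mulVec]
      have e : (if (!s) = true then w0 else ψ) = (if s = true then ψ else w0) := by
        cases s <;> simp
      rw [e, h7, Matrix.mulVec_smul, g3, smul_smul]

theorem p1_inv {w0 ψ : Fin 3 → F} {x : MulAut (SL3 F)} (hx : P1 w0 ψ x) : P1 w0 ψ x⁻¹ := by
  obtain ⟨s, M, κ, κ', k1, k2, h1, h2, h3⟩ := hx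
  have hd := h1.det_ne
  have hdt : (M.transpose).det ≠ 0 := by rw [Matrix.det_transpose]; exact hd
  cases s with
  | false =>
    simp only [Bool.false_eq_true, if_false] at h2 h3
    have h6 := inv_mulVec hdt k2 h3
    have h7 := inv_mulVec hd k1 h2
    refine ⟨false, _, κ⁻¹, κ'⁻¹, inv_ne_zero k1, inv_ne_zero k2, gis_inv_f h1, ?_, ?_⟩
    · simpa using h7
    · rw [Matrix.transpose_nonsing_inv]
      simpa using h6
  | true =>
    simp only [if_true] at h2 h3
    refine ⟨true, _, κ', κ, k2, k1, gis_inv_t h1, ?_, ?_⟩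
    · simpa using h3
    · rw [Matrix.transpose_transpose]
      simpa using h2

theorem perm3 (σ : Equiv.Perm (Fin 3)) :
    (σ 0 = 0 ∧ σ 1 = 1 ∧ σ 2 = 2) ∨ (σ 0 = 0 ∧ σ 1 = 2 ∧ σ 2 = 1) ∨
    (σ 0 = 1 ∧ σ 1 = 0 ∧ σ 2 = 2) ∨ (σ 0 = 1 ∧ σ 1 = 2 ∧ σ 2 = 0) ∨
    (σ 0 = 2 ∧ σ 1 = 0 ∧ σ 2 = 1) ∨ (σ 0 = 2 ∧ σ 1 = 1 ∧ σ 2 = 0) := by
  revert σ
  decide

theorem cgi_thm : CGIStmt := by
  intro F _ τ w hh2 hh3 hp a b c d hG
  obtain ⟨ha, hb, hc, hd⟩ := hG
  have t0 := hp.t0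
  have t2 := hp.t2
  -- powers of `b * c`
  have hx : GIs (b * c) true !![0, 0, 1; 1, 0, 0; 0, τ, 0] := by
    have := hb.mul_inner hc
    have e : !![0, 1, 0; 1, 0, 0; 0, 0, τ] * !![1, 0, 0; 0, 0, 1; 0, 1, 0] =
        (!![0, 0, 1; 1, 0, 0; 0, τ, 0] : M3 F) := by
      ext i j; fin_cases i <;> fin_cases j <;> simp [Matrix.mul_apply, Fin.sum_univ_three]
    rwa [e] at this
  have i1 : (!![0, 0, 1; 1, 0, 0; 0, τ, 0] : M3 F) * !![0, 1, 0; 0, 0, τ⁻¹; 1, 0, 0] = 1 := by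
    ext i j; fin_cases i <;> fin_cases j <;>
      simp [Matrix.mul_apply, Fin.sum_univ_three, t0]
  have hx2 : GIs ((b * c) ^ 2) false !![0, τ, 0; 0, 0, 1; τ⁻¹, 0, 0] := by
    have := hx.mul_outer hx i1
    have e : (!![0, 1, 0; 0, 0, τ⁻¹; 1, 0, 0] : M3 F).transpose * !![0, 0, 1; 1, 0, 0; 0, τ, 0] =
        (!![0, τ, 0; 0, 0, 1; τ⁻¹, 0, 0] : M3 F) := by
      ext i j; fin_cases i <;> fin_cases j <;>
        simp [Matrix.mul_apply, Fin.sum_univ_three, t0]
    rw [e, ← pow_two] at this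
    exact this
  have hx4 : GIs ((b * c) ^ 4) false !![0, 0, τ; τ⁻¹, 0, 0; 0, 1, 0] := by
    have := hx2.mul_inner hx2
    have e : (!![0, τ, 0; 0, 0, 1; τ⁻¹, 0, 0] : M3 F) * !![0, τ, 0; 0, 0, 1; τ⁻¹, 0, 0] =
        (!![0, 0, τ; τ⁻¹, 0, 0; 0, 1, 0] : M3 F) := by
      ext i j; fin_cases i <;> fin_cases j <;>
        simp [Matrix.mul_apply, Fin.sum_univ_three, t0]
    rw [e, ← pow_add] at this
    exact this
  have hcx2 : GIs (c * (b * c) ^ 2) false !![0, τ, 0; τ⁻¹, 0, 0; 0, 0, 1] := by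
    have := hc.mul_inner hx2
    have e : (!![1, 0, 0; 0, 0, 1; 0, 1, 0] : M3 F) * !![0, τ, 0; 0, 0, 1; τ⁻¹, 0, 0] =
        (!![0, τ, 0; τ⁻¹, 0, 0; 0, 0, 1] : M3 F) := by
      ext i j; fin_cases i <;> fin_cases j <;>
        simp [Matrix.mul_apply, Fin.sum_univ_three, t0]
    rwa [e] at this
  have hcx4 : GIs (c * (b * c) ^ 4) false !![0, 0, τ; 0, 1, 0; τ⁻¹, 0, 0] := by
    have := hc.mul_inner hx4
    have e : (!![1, 0, 0; 0, 0, 1; 0, 1, 0] : M3 F) * !![0, 0, τ; τ⁻¹, 0, 0; 0, 1, 0] =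
        (!![0, 0, τ; 0, 1, 0; τ⁻¹, 0, 0] : M3 F) := by
      ext i j; fin_cases i <;> fin_cases j <;>
        simp [Matrix.mul_apply, Fin.sum_univ_three, t0]
    rwa [e] at this
  -- membership
  have mb : b ∈ Subgroup.closure ({b, c} : Set (MulAut (SL3 F))) :=
    Subgroup.subset_closure (by simp)
  have mc : c ∈ Subgroup.closure ({b, c} : Set (MulAut (SL3 F))) :=
    Subgroup.subset_closure (by simp)
  have mx := mul_mem mb mc
  -- the first property
  have p1 : ∀ x ∈ Subgroup.closure ({a, b, c} : Set (MulAut (SL3 F))),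
      P1 ![τ, 1, 1] ![1, τ, τ] x := by
    intro x hx
    refine Subgroup.closure_induction (p := fun x _ => P1 ![τ, 1, 1] ![1, τ, τ] x) ?_ ?_ ?_ ?_ hx
    · intro x hx
      simp only [Set.mem_insert_iff, Set.mem_singleton_iff] at hx
      rcases hx with rfl | rfl | rfl
      · refine ⟨_, _, -(τ + 2), -(τ + 2), neg_ne_zero.2 t2, neg_ne_zero.2 t2, ha, ?_, ?_⟩
        · ext i; fin_cases i <;> simp [Matrix.mulVec, dotProduct, Fin.sum_univ_three] <;> ring
        · ext i; fin_cases i <;> simp [Matrix.mulVec, dotProduct, Fin.sum_univ_three] <;> ring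
      · refine ⟨_, _, 1, 1, one_ne_zero, one_ne_zero, hb, ?_, ?_⟩
        · ext i; fin_cases i <;> simp [Matrix.mulVec, dotProduct, Fin.sum_univ_three]
        · ext i; fin_cases i <;> simp [Matrix.mulVec, dotProduct, Fin.sum_univ_three]
      · refine ⟨_, _, 1, 1, one_ne_zero, one_ne_zero, hc, ?_, ?_⟩
        · ext i; fin_cases i <;> simp [Matrix.mulVec, dotProduct, Fin.sum_univ_three]
        · ext i; fin_cases i <;> simp [Matrix.mulVec, dotProduct, Fin.sum_univ_three]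
    · refine ⟨_, _, 1, 1, one_ne_zero, one_ne_zero, gis_one, ?_, ?_⟩
      · simp
      · simp
    · intro x y _ _ h1 h2
      exact p1_mul h1 h2
    · intro x _ h1
      exact p1_inv h1
  -- the second property
  have p2 : ∀ x ∈ Subgroup.closure ({b, c, d} : Set (MulAut (SL3 F))), P2 x := by
    intro x hx
    refine Subgroup.closure_induction (p := fun x _ => P2 x) ?_ ?_ ?_ ?_ hx
    · intro x hx
      simp only [Set.mem_insert_iff, Set.mem_singleton_iff] at hx
      rcases hx with rfl | rfl | rfl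
      · refine ⟨_, _, hb, Equiv.swap 0 1, ![1, 1, τ], ?_, ?_⟩
        · intro i; fin_cases i <;> simp [t0]
        · intro i j; fin_cases i <;> fin_cases j <;> simp [Equiv.swap_apply_def]
      · refine ⟨_, _, hc, Equiv.swap 1 2, ![1, 1, 1], ?_, ?_⟩
        · intro i; fin_cases i <;> simp
        · intro i j; fin_cases i <;> fin_cases j <;> simp [Equiv.swap_apply_def]
      · refine ⟨_, _, hd, Equiv.swap 0 1, ![1, 1, 1], ?_, ?_⟩
        · intro i; fin_cases i <;> simp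
        · intro i j; fin_cases i <;> fin_cases j <;> simp [Equiv.swap_apply_def]
    · refine ⟨_, _, gis_one, 1, ![1, 1, 1], ?_, ?_⟩
      · intro i; fin_cases i <;> simp
      · intro i j; fin_cases i <;> fin_cases j <;> simp
    · intro x y _ _ h1 h2
      exact p2_mul h1 h2
    · intro x _ h1
      exact p2_inv h1
  -- inner elements
  have inn : ∀ x : MulAut (SL3 F), ∀ M : M3 F, GIs x false M →
      x ∈ Subgroup.closure ({a, b, c} : Set (MulAut (SL3 F))) →
      x ∈ Subgroup.closure ({b, c, d} : Set (MulAut (SL3 F))) →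
      x ∈ Subgroup.closure ({b, c} : Set (MulAut (SL3 F))) := by
    intro x M hM h1 h2
    obtain ⟨s, N, κ, κ', k1, k2, g1, g2, g3⟩ := p1 x h1
    obtain ⟨t, L, l1, σ, v, hv, l2⟩ := p2 x h2
    obtain ⟨hs, -⟩ := hM.uniq g1
    subst hs
    obtain ⟨ht, r, hr, e⟩ := g1.uniq l1
    subst ht
    have e2 : L *ᵥ ![τ, 1, 1] = (r * κ) • ![τ, 1, 1] := by
      rw [e, Matrix.smul_mulVec, g2, smul_smul]
      simp
    have rk : r * κ ≠ 0 := mul_ne_zero hr k1
    generalize r * κ = μ at e2 rk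
    have q0 := congrFun e2 0
    have q1 := congrFun e2 1
    have q2 := congrFun e2 2
    simp only [Matrix.mulVec, dotProduct, Fin.sum_univ_three, l2] at q0 q1 q2
    have fin : ∀ y : MulAut (SL3 F), ∀ N' : M3 F,
        y ∈ Subgroup.closure ({b, c} : Set (MulAut (SL3 F))) → GIs y false N' → L = μ • N' →
        x ∈ Subgroup.closure ({b, c} : Set (MulAut (SL3 F))) := by
      intro y N' hy hN' hL
      have : y = x := hN'.ext l1 μ hL
      rw [← this]; exact hy
    rcases perm3 σ with h | h | h | h | h | h <;> obtain ⟨s0, s1, s2⟩ := h <;>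
      simp only [s0, s1, s2] at q0 q1 q2 <;> simp at q0 q1 q2
    · refine fin 1 1 (one_mem _) gis_one ?_
      ext i j
      rw [l2]
      fin_cases i <;> fin_cases j <;> simp [s0, s1, s2, q1, q2]
      rcases q0 with q0 | q0
      · exact q0
      · exact absurd q0 t0
    · refine fin c _ mc hc ?_
      ext i j
      rw [l2]
      fin_cases i <;> fin_cases j <;> simp [s0, s1, s2, q1, q2]
      rcases q0 with q0 | q0
      · exact q0
      · exact absurd q0 t0
    · refine fin _ _ (mul_mem mc (pow_mem mx 2)) hcx2 ?_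
      ext i j
      rw [l2]
      fin_cases i <;> fin_cases j <;> simp [s0, s1, s2, q0, q1, q2]
      field_simp
      exact q1
    · refine fin _ _ (pow_mem mx 4) hx4 ?_
      ext i j
      rw [l2]
      fin_cases i <;> fin_cases j <;> simp [s0, s1, s2, q0, q1, q2]
      field_simp
      exact q1
    · refine fin _ _ (pow_mem mx 2) hx2 ?_
      ext i j
      rw [l2]
      fin_cases i <;> fin_cases j <;> simp [s0, s1, s2, q0, q1, q2]
      field_simp
      exact q2
    · refine fin _ _ (mul_mem mc (pow_mem mx 4)) hcx4 ?_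
      ext i j
      rw [l2]
      fin_cases i <;> fin_cases j <;> simp [s0, s1, s2, q0, q1, q2]
      field_simp
      exact q2
  intro x h1 h2
  obtain ⟨s, M, hM, -⟩ := p2 x h2
  cases s with
  | false => exact inn x M hM h1 h2
  | true =>
    have hinv : M * M⁻¹ = 1 :=
      Matrix.mul_nonsing_inv M (isUnit_iff_ne_zero.2 hM.det_ne)
    have h3 := hM.mul_outer hb hinv
    have m1 : b ∈ Subgroup.closure ({a, b, c} : Set (MulAut (SL3 F))) :=
      Subgroup.subset_closure (by simp)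
    have m2 : b ∈ Subgroup.closure ({b, c, d} : Set (MulAut (SL3 F))) :=
      Subgroup.subset_closure (by simp)
    have h4 := inn (x * b) _ h3 (mul_mem h1 m1) (mul_mem h2 m2)
    have h5 := mul_mem h4 (inv_mem mb)
    rwa [mul_inv_cancel_right] at h5

end Pool.Agent.H6.SCG2
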