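import Pool.Agent.H24.SCG2.Base3

/-!
Project SCG2, module CGS: first and second intersection condition for `PGL(3,q).2`.
-/

namespace Pool.Agent.H6.SCG2

open Matrix Pool.SCG

variable {F : Type*} [Field F]

/-- commuting powers -/
theorem pow_red {G : Type*} [Group G] {x y : G} (h6 : x ^ 6 = 1) (h1 : x * y ≠ y * x)
    (h2 : x ^ 2 * y ≠ y * x ^ 2) (h3 : x ^ 3 * y ≠ y * x ^ 3) (k : ℕ)
    (h : x ^ k * y = y * x ^ k) : x ^ k = 1 := by
  have hk : x ^ k = x ^ (k % 6) := by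
    conv_lhs => rw [← Nat.div_add_mod k 6]
    rw [pow_add, pow_mul, h6, one_pow, one_mul]
  rw [hk] at h ⊢
  have hlt : k % 6 < 6 := Nat.mod_lt _ (by norm_num)
  generalize k % 6 = r at h hlt ⊢
  have hc : Commute (x ^ r) y := h
  interval_cases r
  · simp
  · exact absurd (by simpa using h) h1
  · exact absurd h h2
  · exact absurd h h3
  · exfalso
    have h8 := hc.pow_left 2
    have e : (x ^ 4) ^ 2 = x ^ 2 := by
      rw [← pow_mul, show 4 * 2 = 6 + 2 from rfl, pow_add, h6, one_mul]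
    rw [e] at h8
    exact h2 h8
  · exfalso
    have h8 := hc.pow_left 5
    have e : (x ^ 5) ^ 5 = x := by
      rw [← pow_mul, show 5 * 5 = 6 * 4 + 1 from rfl, pow_add, pow_mul, h6, one_pow, one_mul,
        pow_one]
    rw [e] at h8
    exact h1 h8

theorem cgs_thm : CGSStmt := by
  intro F _ τ w h2 h3 hp a b c d hG
  obtain ⟨ha, hb, hc, hd⟩ := hG
  have t0 := hp.t0
  have t1 := hp.t1
  have t2 := hp.t2
  have t3 := hp.t3
  -- powers of `b * c`
  have hx : GIs (b * c) true !![0, 0, 1; 1, 0, 0; 0, τ, 0] := by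
    have := hb.mul_inner hc
    have e : !![0, 1, 0; 1, 0, 0; 0, 0, τ] * !![1, 0, 0; 0, 0, 1; 0, 1, 0] =
        (!![0, 0, 1; 1, 0, 0; 0, τ, 0] : M3 F) := by
      ext i j; fin_cases i <;> fin_cases j <;> simp [Matrix.mul_apply, Fin.sum_univ_three]
    rwa [e] at this
  have i1 : (!![0, 0, 1; 1, 0, 0; 0, τ, 0] : M3 F) * !![0, 1, 0; 0, 0, τ⁻¹; 1, 0, 0] = 1 := by
    ext i j; fin_cases i <;> fin_cases j <;>
      simp [Matrix.mul_apply, Fin.sum_univ_three, t0]
  have hx2 : GIs ((b * c) ^ 2) false !![0, τ, 0; 0, 0, 1; τ⁻¹, 0, 0] := by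
    have := hx.mul_outer hx i1
    have e : (!![0, 1, 0; 0, 0, τ⁻¹; 1, 0, 0] : M3 F).transpose * !![0, 0, 1; 1, 0, 0; 0, τ, 0] =
        (!![0, τ, 0; 0, 0, 1; τ⁻¹, 0, 0] : M3 F) := by
      ext i j; fin_cases i <;> fin_cases j <;>
        simp [Matrix.mul_apply, Fin.sum_univ_three, t0]
    rw [e, ← pow_two] at this
    exact this
  have i2 : (!![0, τ, 0; 0, 0, 1; τ⁻¹, 0, 0] : M3 F) * !![0, 0, τ; τ⁻¹, 0, 0; 0, 1, 0] = 1 := by
    ext i j; fin_cases i <;> fin_cases j <;>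
      simp [Matrix.mul_apply, Fin.sum_univ_three, t0]
  have hx3 : GIs ((b * c) ^ 3) true !![τ⁻¹, 0, 0; 0, τ, 0; 0, 0, τ] := by
    have := hx2.mul_outer hx i2
    have e : (!![0, 0, τ; τ⁻¹, 0, 0; 0, 1, 0] : M3 F).transpose * !![0, 0, 1; 1, 0, 0; 0, τ, 0] =
        (!![τ⁻¹, 0, 0; 0, τ, 0; 0, 0, τ] : M3 F) := by
      ext i j; fin_cases i <;> fin_cases j <;>
        simp [Matrix.mul_apply, Fin.sum_univ_three, t0]
    rw [e, ← pow_succ] at this
    exact this
  have i3 : (!![τ⁻¹, 0, 0; 0, τ, 0; 0, 0, τ] : M3 F) * !![τ, 0, 0; 0, τ⁻¹, 0; 0, 0, τ⁻¹] = 1 := by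
    ext i j; fin_cases i <;> fin_cases j <;>
      simp [Matrix.mul_apply, Fin.sum_univ_three, t0]
  have h6 : (b * c) ^ 6 = 1 := by
    have := hx3.mul_outer hx3 i3
    have e : (!![τ, 0, 0; 0, τ⁻¹, 0; 0, 0, τ⁻¹] : M3 F).transpose *
        !![τ⁻¹, 0, 0; 0, τ, 0; 0, 0, τ] = (1 : M3 F) := by
      ext i j; fin_cases i <;> fin_cases j <;>
        simp [Matrix.mul_apply, Fin.sum_univ_three, t0]
    rw [e, ← pow_add] at this
    exact this.eq_one_iff.2 ⟨1, by rw [one_smul]⟩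
  -- inverses
  have id1 : (!![0, 1, 0; 1, 0, 0; 0, 0, 1] : M3 F) * !![0, 1, 0; 1, 0, 0; 0, 0, 1] = 1 := by
    ext i j; fin_cases i <;> fin_cases j <;> simp [Matrix.mul_apply, Fin.sum_univ_three]
  have ia : (!![1, -(τ + 1), -(τ + 1); -(τ + 1), 1, -(τ + 1); -(τ + 1), -(τ + 1), 1] : M3 F) *
      !![-τ, τ + 1, τ + 1; τ + 1, -τ, τ + 1; τ + 1, τ + 1, -τ] =
      (-((τ + 2) * (2 * τ + 1))) • (1 : M3 F) := by
    ext i j; fin_cases i <;> fin_cases j <;>
      simp [Matrix.mul_apply, Fin.sum_univ_three] <;> ring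
  have ca : (-((τ + 2) * (2 * τ + 1))) ≠ 0 := neg_ne_zero.2 (mul_ne_zero t2 t3)
  refine ⟨fun k hk => pow_red h6 ?_ ?_ ?_ k hk, fun k hk => pow_red h6 ?_ ?_ ?_ k hk⟩
  · intro h
    have e1 := hx.mul_inner hd
    have e2 := hd.mul_outer hx id1
    rw [← h] at e2
    obtain ⟨_, κ, hκ, e⟩ := e1.uniq e2
    have := congrFun (congrFun e 0) 0
    simp [Matrix.mul_apply, Fin.sum_univ_three] at this
  · intro h
    have e1 := hx2.mul_inner hd
    have e2 := hd.mul_inner hx2
    rw [← h] at e2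
    obtain ⟨_, κ, hκ, e⟩ := e1.uniq e2
    have := congrFun (congrFun e 0) 0
    simp [Matrix.mul_apply, Fin.sum_univ_three, hκ, t0] at this
  · intro h
    have e1 := hx3.mul_inner hd
    have e2 := hd.mul_outer hx3 id1
    rw [← h] at e2
    obtain ⟨_, κ, hκ, e⟩ := e1.uniq e2
    have e22 := congrFun (congrFun e 2) 2
    have e01 := congrFun (congrFun e 0) 1
    simp [Matrix.mul_apply, Fin.sum_univ_three] at e22 e01
    apply t1
    have hk1 : κ = 1 := by
      have : (κ - 1) * τ = 0 := by linear_combination -e22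
      rcases mul_eq_zero.1 this with h' | h'
      · exact sub_eq_zero.1 h'
      · exact absurd h' t0
    rw [hk1] at e01
    field_simp at e01
    linear_combination e01
  · intro h
    have e1 := hx.mul_outer ha i1
    have e2 := ha.mul_outer' hx ia ca
    rw [← h] at e2
    obtain ⟨_, κ, hκ, e⟩ := e1.uniq e2
    have e00 := congrFun (congrFun e 0) 0
    have e02 := congrFun (congrFun e 0) 2
    simp [Matrix.mul_apply, Fin.sum_univ_three] at e00 e02
    apply t1
    linear_combination -e00 - (τ + 1) * e02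
  · intro h
    have e1 := hx2.mul_outer ha i2
    have e2 := ha.mul_inner hx2
    rw [← h] at e2
    obtain ⟨_, κ, hκ, e⟩ := e1.uniq e2
    have e01 := congrFun (congrFun e 0) 1
    have e12 := congrFun (congrFun e 1) 2
    simp [Matrix.mul_apply, Fin.sum_univ_three] at e01 e12
    apply t1
    field_simp at e01
    linear_combination e01 - e12
  · intro h
    have e1 := hx3.mul_outer ha i3
    have e2 := ha.mul_outer' hx3 ia ca
    rw [← h] at e2
    obtain ⟨_, κ, hκ, e⟩ := e1.uniq e2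
    have e00 := congrFun (congrFun e 0) 0
    have e01 := congrFun (congrFun e 0) 1
    simp [Matrix.mul_apply, Fin.sum_univ_three] at e00 e01
    apply t1
    field_simp at e00 e01
    linear_combination τ * e01 + (τ + 1) * e00

end Pool.Agent.H6.SCG2
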