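import Pool.Agent.H24.SCG2.Base3
import Pool.Agent.H24.SCG2.Stmts4
import Pool.Agent.H6.SCG2.CGS

/-!
Project SCG2, module R3S: first and second intersection condition for `q = 3`.
-/

namespace Pool.Agent.H6.SCG2

open Matrix Pool.SCG

theorem r3s_thm : R3SStmt := by
  intro F _ h3 a b c d hG
  obtain ⟨ha, hb, hc, hd⟩ := hG
  have hx : GIs (b * c) false !![-1, 0, 0; 1, -1, 0; 1, 1, 1] := by
    have := hb.mul_inner hc
    have e : dg 1 (-1) (-1) * !![-1, 0, 0; -1, 1, 0; -1, -1, -1] =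
        (!![-1, 0, 0; 1, -1, 0; 1, 1, 1] : M3 F) := by
      ext i j; fin_cases i <;> fin_cases j <;> simp [dg, Matrix.mul_apply, Fin.sum_univ_three]
    rwa [e] at this
  have hx2 : GIs ((b * c) ^ 2) false !![1, 0, 0; 1, 1, 0; 1, 0, 1] := by
    have := hx.mul_inner hx
    have e : (!![-1, 0, 0; 1, -1, 0; 1, 1, 1] : M3 F) * !![-1, 0, 0; 1, -1, 0; 1, 1, 1] =
        (!![1, 0, 0; 1, 1, 0; 1, 0, 1] : M3 F) := by
      ext i j; fin_cases i <;> fin_cases j <;>
        simp [Matrix.mul_apply, Fin.sum_univ_three] <;>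
        first | linear_combination h3 | linear_combination -h3
    rw [e, ← pow_two] at this
    exact this
  have hx3 : GIs ((b * c) ^ 3) false !![-1, 0, 0; 0, -1, 0; 0, 1, 1] := by
    have := hx2.mul_inner hx
    have e : (!![1, 0, 0; 1, 1, 0; 1, 0, 1] : M3 F) * !![-1, 0, 0; 1, -1, 0; 1, 1, 1] =
        (!![-1, 0, 0; 0, -1, 0; 0, 1, 1] : M3 F) := by
      ext i j; fin_cases i <;> fin_cases j <;>
        simp [Matrix.mul_apply, Fin.sum_univ_three]
    rw [e, ← pow_succ] at this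
    exact this
  have h6 : (b * c) ^ 6 = 1 := by
    have := hx3.mul_inner hx3
    have e : (!![-1, 0, 0; 0, -1, 0; 0, 1, 1] : M3 F) * !![-1, 0, 0; 0, -1, 0; 0, 1, 1] = 1 := by
      ext i j; fin_cases i <;> fin_cases j <;>
        simp [Matrix.mul_apply, Fin.sum_univ_three]
    rw [e, ← pow_add] at this
    exact this.eq_one_iff.2 ⟨1, by rw [one_smul]⟩
  have i1 : (!![-1, 0, 0; 1, -1, 0; 1, 1, 1] : M3 F) * !![-1, 0, 0; -1, -1, 0; -1, 1, 1] = 1 := by
    ext i j; fin_cases i <;> fin_cases j <;>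
      simp [Matrix.mul_apply, Fin.sum_univ_three] <;>
      first | linear_combination h3 | linear_combination -h3
  have i2 : (!![1, 0, 0; 1, 1, 0; 1, 0, 1] : M3 F) * !![1, 0, 0; -1, 1, 0; -1, 0, 1] = 1 := by
    ext i j; fin_cases i <;> fin_cases j <;>
      simp [Matrix.mul_apply, Fin.sum_univ_three]
  have i3 : (!![-1, 0, 0; 0, -1, 0; 0, 1, 1] : M3 F) * !![-1, 0, 0; 0, -1, 0; 0, 1, 1] = 1 := by
    ext i j; fin_cases i <;> fin_cases j <;>
      simp [Matrix.mul_apply, Fin.sum_univ_three]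
  refine ⟨fun k hk => pow_red h6 ?_ ?_ ?_ k hk, fun k hk => pow_red h6 ?_ ?_ ?_ k hk⟩
  · intro h
    have e1 := hd.mul_inner hx
    have e2 := hx.mul_outer hd i1
    rw [h] at e2
    obtain ⟨_, κ, hκ, e⟩ := e1.uniq e2
    have q0 := congrFun (congrFun e 0) 1
    have q1 := congrFun (congrFun e 1) 0
    have q2 := congrFun (congrFun e 1) 2
    simp [dg, Matrix.mul_apply, Fin.sum_univ_three] at q0 q1 q2
  · intro h
    have e1 := hd.mul_inner hx2
    have e2 := hx2.mul_outer hd i2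
    rw [h] at e2
    obtain ⟨_, κ, hκ, e⟩ := e1.uniq e2
    have q0 := congrFun (congrFun e 0) 1
    have q1 := congrFun (congrFun e 1) 0
    have q2 := congrFun (congrFun e 1) 2
    simp [dg, Matrix.mul_apply, Fin.sum_univ_three] at q0 q1 q2
  · intro h
    have e1 := hd.mul_inner hx3
    have e2 := hx3.mul_outer hd i3
    rw [h] at e2
    obtain ⟨_, κ, hκ, e⟩ := e1.uniq e2
    have q0 := congrFun (congrFun e 0) 1
    have q1 := congrFun (congrFun e 1) 0
    have q2 := congrFun (congrFun e 1) 2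
    simp [dg, Matrix.mul_apply, Fin.sum_univ_three] at q0 q1 q2
  · intro h
    have e1 := ha.mul_inner hx
    have e2 := hx.mul_outer ha i1
    rw [h] at e2
    obtain ⟨_, κ, hκ, e⟩ := e1.uniq e2
    have q0 := congrFun (congrFun e 0) 1
    have q1 := congrFun (congrFun e 1) 0
    simp [dg, Matrix.mul_apply, Fin.sum_univ_three] at q0 q1
    exact one_ne_zero (α := F) (by linear_combination h3 - (q1 - q0))
  · intro h
    have e1 := ha.mul_inner hx2
    have e2 := hx2.mul_outer ha i2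
    rw [h] at e2
    obtain ⟨_, κ, hκ, e⟩ := e1.uniq e2
    have q0 := congrFun (congrFun e 0) 1
    have q1 := congrFun (congrFun e 1) 0
    have q2 := congrFun (congrFun e 0) 0
    have q3 := congrFun (congrFun e 0) 2
    simp [dg, Matrix.mul_apply, Fin.sum_univ_three] at q0 q1 q2 q3
  · intro h
    have e1 := ha.mul_inner hx3
    have e2 := hx3.mul_outer ha i3
    rw [h] at e2
    obtain ⟨_, κ, hκ, e⟩ := e1.uniq e2
    have q0 := congrFun (congrFun e 0) 1
    have q1 := congrFun (congrFun e 1) 0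
    have q2 := congrFun (congrFun e 0) 0
    have q3 := congrFun (congrFun e 0) 2
    simp [dg, Matrix.mul_apply, Fin.sum_univ_three] at q0 q1 q2 q3

end Pool.Agent.H6.SCG2
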