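import Pool.Agent.H24.SCG2.Stmts1

/-!
Project SCG2, module SL2P.
-/

namespace Pool.Agent.H6.SCG2

open Matrix Pool.SCG

section

variable {F : Type} [Field F]

/-- The matrices which are, after the base change `P`, in `X` up to scalars. -/
def Sx (X : Subgroup (GL (Fin 2) F)) (P : M2 F) : Set (M2 F) :=
  {A | ∃ k ∈ X, ∃ c : F, c ≠ 0 ∧ (k : M2 F) * P = c • (P * A)}

theorem Sx_mul {X : Subgroup (GL (Fin 2) F)} {P A B : M2 F} (hA : A ∈ Sx X P)
    (hB : B ∈ Sx X P) : A * B ∈ Sx X P := by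
  obtain ⟨k, hk, c, hc, h1⟩ := hA
  obtain ⟨l, hl, d, hd, h2⟩ := hB
  refine ⟨k * l, X.mul_mem hk hl, c * d, mul_ne_zero hc hd, ?_⟩
  rw [Units.val_mul, mul_assoc, h2, mul_smul_comm, ← mul_assoc, h1, smul_mul_assoc, smul_smul,
    mul_assoc, mul_comm d c]

theorem Sx_smul {X : Subgroup (GL (Fin 2) F)} {P A : M2 F} {a : F} (ha : a ≠ 0)
    (hA : A ∈ Sx X P) : a • A ∈ Sx X P := by
  obtain ⟨k, hk, c, hc, h1⟩ := hA
  refine ⟨k, hk, c / a, div_ne_zero hc ha, ?_⟩
  rw [h1, mul_smul_comm, smul_smul, div_mul_cancel₀ _ ha]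

theorem Sx_of_smul {X : Subgroup (GL (Fin 2) F)} {P A : M2 F} {a : F} (ha : a ≠ 0)
    (hA : a • A ∈ Sx X P) : A ∈ Sx X P := by
  have := Sx_smul (inv_ne_zero ha) hA
  rwa [smul_smul, inv_mul_cancel₀ ha, one_smul] at this

/-- generation of `SL(2)` from the upper unipotent elements and one more element -/
theorem gen {S : Set (M2 F)} (hmul : ∀ A B, A ∈ S → B ∈ S → A * B ∈ S)
    (hsm : ∀ (a : F) (A : M2 F), a ≠ 0 → a • A ∈ S → A ∈ S)
    (hU : ∀ s : F, !![1, s; 0, 1] ∈ S) (al be ga de : F) (hga : ga ≠ 0)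
    (hdet : al * de - be * ga ≠ 0) (hx : !![al, be; ga, de] ∈ S) (A : M2 F) (hA : A.det = 1) :
    A ∈ S := by
  set b : F := be - al * de / ga with hb
  have hb0 : b ≠ 0 := by
    intro h
    apply hdet
    have : b * ga = be * ga - al * de := by rw [hb]; field_simp
    rw [h, zero_mul] at this
    linear_combination this
  have hW : !![0, b; ga, 0] ∈ S := by
    have h1 := hmul _ _ (hmul _ _ (hU (-(al / ga))) hx) (hU (-(de / ga)))
    have h2 : !![1, -(al / ga); 0, 1] * !![al, be; ga, de] * !![1, -(de / ga); 0, 1] =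
        !![0, b; ga, 0] := by
      ext i j
      fin_cases i <;> fin_cases j <;> simp [Matrix.mul_apply, Fin.sum_univ_two, hb] <;>
        field_simp <;> ring
    rwa [h2] at h1
  have hL : ∀ r : F, !![1, 0; r, 1] ∈ S := by
    intro r
    apply hsm (b * ga) _ (mul_ne_zero hb0 hga)
    have h1 := hmul _ _ (hmul _ _ hW (hU (b * r / ga))) hW
    have h2 : !![0, b; ga, 0] * !![1, b * r / ga; 0, 1] * !![0, b; ga, 0] =
        (b * ga) • !![1, 0; r, 1] := by
      ext i j
      fin_cases i <;> fin_cases j <;> simp [Matrix.mul_apply, Fin.sum_univ_two] <;>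
        field_simp
    rwa [h2] at h1
  have key : ∀ a' b' c' d' : F, a' * d' - b' * c' = 1 → c' ≠ 0 → !![a', b'; c', d'] ∈ S := by
    intro a' b' c' d' h1 h2
    have h3 := hmul _ _ (hmul _ _ (hU ((a' - 1) / c')) (hL c')) (hU ((d' - 1) / c'))
    have h4 : !![1, (a' - 1) / c'; 0, 1] * !![1, 0; c', 1] * !![1, (d' - 1) / c'; 0, 1] =
        !![a', b'; c', d'] := by
      ext i j
      fin_cases i <;> fin_cases j <;> simp [Matrix.mul_apply, Fin.sum_univ_two] <;>
        field_simp <;> first | linear_combination h1 | linear_combination -h1 | ring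
    rwa [h4] at h3
  obtain ⟨a', b', c', d', rfl⟩ : ∃ a' b' c' d' : F, A = !![a', b'; c', d'] :=
    ⟨_, _, _, _, Matrix.eta_fin_two A⟩
  rw [Matrix.det_fin_two_of] at hA
  by_cases hc : c' = 0
  · have h1 : a' ≠ 0 := by
      rintro rfl
      rw [hc] at hA
      simp at hA
    have h2 := key a' b' a' (b' + d') (by rw [hc] at hA; linear_combination hA) h1
    have h3 := hmul _ _ (hL (-1)) h2
    have h4 : !![1, 0; -1, 1] * !![a', b'; a', b' + d'] = !![a', b'; c', d'] := by
      rw [hc]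
      ext i j
      fin_cases i <;> fin_cases j <;> simp [Matrix.mul_apply, Fin.sum_univ_two]
    rwa [h4] at h3
  · exact key a' b' c' d' hA hc

end

theorem sl2p_thm : SL2PStmt := by
  intro p _ hp2 X u h g hu hh hg htr hsc hcomm A hA
  have h2 : (2 : ZMod p) ≠ 0 := by
    intro h0
    have h1 : ((2 : ℕ) : ZMod p) = 0 := by exact_mod_cast h0
    rw [ZMod.natCast_eq_zero_iff] at h1
    have := (Nat.prime_dvd_prime_iff_eq (Fact.out : p.Prime) Nat.prime_two).1 h1
    exact hp2 this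
  obtain ⟨x, y, z, w, hM⟩ : ∃ x y z w : ZMod p, (u : M2 (ZMod p)) = !![x, y; z, w] :=
    ⟨_, _, _, _, Matrix.eta_fin_two _⟩
  have hdu : (u : M2 (ZMod p)).det ≠ 0 := by
    have := u.isUnit
    rw [Matrix.isUnit_iff_isUnit_det] at this
    exact this.ne_zero
  rw [hM] at htr hsc hdu
  rw [Matrix.trace_fin_two_of, Matrix.det_fin_two_of] at htr
  rw [Matrix.det_fin_two_of] at hdu
  set lam : ZMod p := (x + w) / 2 with hlam
  have hl2 : lam ^ 2 = x * w - y * z := by
    rw [hlam, div_pow, div_eq_iff (pow_ne_zero 2 h2)]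
    linear_combination htr
  have hl0 : lam ≠ 0 := by
    intro h0
    rw [h0] at hl2
    exact hdu (by rw [← hl2]; ring)
  set n : ZMod p := (x - w) / 2 with hn
  have hn2 : n ^ 2 + y * z = 0 := by
    have : n ^ 2 = lam ^ 2 - x * w := by
      rw [hn, hlam]
      field_simp
      ring
    rw [this, hl2]
    ring
  have hx' : x = lam + n := by rw [hlam, hn]; field_simp; ring
  have hw' : w = lam - n := by rw [hlam, hn]; field_simp; ring
  -- a base change which brings `u` in Jordan form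
  obtain ⟨P, hP, hPu⟩ : ∃ P : M2 (ZMod p), P.det ≠ 0 ∧
      (u : M2 (ZMod p)) * P = lam • (P * !![1, 1; 0, 1]) := by
    by_cases hz : z = 0
    · have hn0 : n = 0 := by
        rw [hz] at hn2
        simpa using hn2
      have hy : y ≠ 0 := by
        intro hy
        apply hsc lam
        rw [hx', hw', hn0, hy, hz]
        simp
      refine ⟨!![y / lam, 0; 0, 1], ?_, ?_⟩
      · rw [Matrix.det_fin_two_of]
        simp [hy, hl0]
      · rw [hM, hx', hw', hn0, hz]
        ext i j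
        fin_cases i <;> fin_cases j <;> simp [Matrix.mul_apply, Fin.sum_univ_two] <;> field_simp
    · refine ⟨!![n / lam, 1; z / lam, 0], ?_, ?_⟩
      · rw [Matrix.det_fin_two_of]
        simp [hz, hl0]
      · rw [hM, hx', hw']
        have hy : y = -(n ^ 2) / z := by
          rw [eq_div_iff hz]
          linear_combination hn2
        rw [hy]
        ext i j
        fin_cases i <;> fin_cases j <;> simp [Matrix.mul_apply, Fin.sum_univ_two] <;>
          field_simp <;> ring
  have hPu' : IsUnit P.det := hP.isUnit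
  have hU1 : !![1, 1; 0, 1] ∈ Sx X P := ⟨u, hu, lam, hl0, hPu⟩
  have hUn : ∀ m : ℕ, !![1, (m : ZMod p); 0, 1] ∈ Sx X P := by
    intro m
    induction m with
    | zero =>
      refine ⟨1, X.one_mem, 1, one_ne_zero, ?_⟩
      have : !![1, ((0 : ℕ) : ZMod p); 0, 1] = (1 : M2 (ZMod p)) := by
        ext i j
        fin_cases i <;> fin_cases j <;> simp
      rw [this, mul_one, one_smul, Units.val_one, one_mul]
    | succ m ih =>
      have h1 := Sx_mul ih hU1
      have h3 : !![1, (m : ZMod p); 0, 1] * !![1, 1; 0, 1] =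
          !![1, ((m + 1 : ℕ) : ZMod p); 0, 1] := by
        ext i j
        fin_cases i <;> fin_cases j <;> simp [Matrix.mul_apply, Fin.sum_univ_two, add_comm]
      rwa [h3] at h1
  have hU : ∀ s : ZMod p, !![1, s; 0, 1] ∈ Sx X P := by
    intro s
    have := hUn s.val
    rwa [ZMod.natCast_zmod_val] at this
  have hmem : ∀ k : GL (Fin 2) (ZMod p), k ∈ X → P⁻¹ * (k : M2 (ZMod p)) * P ∈ Sx X P := by
    intro k hk
    refine ⟨k, hk, 1, one_ne_zero, ?_⟩
    rw [one_smul, ← mul_assoc, ← mul_assoc, Matrix.mul_nonsing_inv _ hPu', one_mul]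
  -- an element which moves the fixed line
  obtain ⟨k, hk, hk10⟩ : ∃ k ∈ X, (P⁻¹ * (k : M2 (ZMod p)) * P) 1 0 ≠ 0 := by
    by_contra hcon
    push Not at hcon
    have h1 := hcon h hh
    have h3 := hcon g hg
    apply hcomm
    have h4 : P⁻¹ * ((h : M2 (ZMod p)) * (g : M2 (ZMod p)) -
        (g : M2 (ZMod p)) * (h : M2 (ZMod p))) * P =
        (P⁻¹ * (h : M2 (ZMod p)) * P) * (P⁻¹ * (g : M2 (ZMod p)) * P) -
        (P⁻¹ * (g : M2 (ZMod p)) * P) * (P⁻¹ * (h : M2 (ZMod p)) * P) := by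
      have e1 : ∀ a b : M2 (ZMod p), (P⁻¹ * a * P) * (P⁻¹ * b * P) = P⁻¹ * (a * b) * P := by
        intro a b
        calc (P⁻¹ * a * P) * (P⁻¹ * b * P) = P⁻¹ * a * (P * P⁻¹) * b * P := by
              simp only [mul_assoc]
          _ = P⁻¹ * (a * b) * P := by
              rw [Matrix.mul_nonsing_inv _ hPu', mul_one]
              simp only [mul_assoc]
      rw [e1, e1, mul_sub, sub_mul]
    have h5 : (P⁻¹ * ((h : M2 (ZMod p)) * (g : M2 (ZMod p)) -
        (g : M2 (ZMod p)) * (h : M2 (ZMod p))) * P).det = 0 := by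
      rw [h4]
      generalize P⁻¹ * (h : M2 (ZMod p)) * P = a at *
      generalize P⁻¹ * (g : M2 (ZMod p)) * P = b at *
      rw [Matrix.det_fin_two]
      simp only [Matrix.sub_apply, Matrix.mul_apply, Fin.sum_univ_two]
      rw [h1, h3]
      ring
    rw [Matrix.det_mul, Matrix.det_mul] at h5
    have h6 : (P⁻¹).det * P.det = 1 := by
      rw [← Matrix.det_mul, Matrix.nonsing_inv_mul _ hPu', Matrix.det_one]
    calc ((h : M2 (ZMod p)) * (g : M2 (ZMod p)) - (g : M2 (ZMod p)) * (h : M2 (ZMod p))).det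
        = ((P⁻¹).det * P.det) * ((h : M2 (ZMod p)) * (g : M2 (ZMod p)) -
          (g : M2 (ZMod p)) * (h : M2 (ZMod p))).det := by rw [h6, one_mul]
      _ = 0 := by rw [← h5]; ring
  have hmemk := hmem k hk
  have hdk : (P⁻¹ * (k : M2 (ZMod p)) * P).det ≠ 0 := by
    have h6 : (P⁻¹).det * P.det = 1 := by
      rw [← Matrix.det_mul, Matrix.nonsing_inv_mul _ hPu', Matrix.det_one]
    have h7 : (k : M2 (ZMod p)).det ≠ 0 := by
      have := k.isUnit
      rw [Matrix.isUnit_iff_isUnit_det] at this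
      exact this.ne_zero
    rw [Matrix.det_mul, Matrix.det_mul, mul_right_comm, h6, one_mul]
    exact h7
  have hfin : P⁻¹ * A * P ∈ Sx X P := by
    have h6 : (P⁻¹).det * P.det = 1 := by
      rw [← Matrix.det_mul, Matrix.nonsing_inv_mul _ hPu', Matrix.det_one]
    obtain ⟨al, be, ga, de, hK⟩ : ∃ al be ga de : ZMod p,
        P⁻¹ * (k : M2 (ZMod p)) * P = !![al, be; ga, de] :=
      ⟨_, _, _, _, Matrix.eta_fin_two _⟩
    rw [hK] at hk10 hmemk hdk
    rw [Matrix.det_fin_two_of] at hdk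
    refine gen (fun A B hA hB => Sx_mul hA hB) (fun a A ha hA => Sx_of_smul ha hA) hU al be ga de
      (by simpa using hk10) hdk hmemk _ ?_
    rw [Matrix.det_mul, Matrix.det_mul, hA, mul_one, h6]
  obtain ⟨k', hk', c, hc, h1⟩ := hfin
  refine ⟨k', hk', c, hc, ?_⟩
  have h3 : P * (P⁻¹ * A * P) = A * P := by
    rw [← mul_assoc, ← mul_assoc, Matrix.mul_nonsing_inv _ hPu', one_mul]
  rw [h3] at h1
  have h4 := congrArg (fun M : M2 (ZMod p) => M * P⁻¹) h1
  simp only [smul_mul_assoc, mul_assoc, Matrix.mul_nonsing_inv _ hPu', mul_one] at h4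
  exact h4

end Pool.Agent.H6.SCG2
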